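import Mathlib
import Pool.Agent.N119.PS.Stm2

set_option autoImplicit false

/-!
# Project PSC2, leaf GB2: two-sided Gibbs bounds for every base point
-/

namespace Pool.Agent.N278.PSC.GB2

open Pool.Agent.H472R3 Pool.Agent.H67R3.FSR Pool.Agent.H67R4.SR MeasureTheory Topology Filter
open Pool.Agent.N119.PS
open scoped ENNReal NNReal

variable {N : ℕ}

theorem critExp_nonneg (A : FTree N) : 0 ≤ critExp A :=
  Real.sInf_nonneg fun _ hs => hs.1

/-- the ends whose ray from the base vertex can be preceded by `g` -/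
def E (g : FreeGroup (Fin N)) : Set (Bd N) := {ζ | g.toWord.getLast? ≠ some (inv' (ζ.1 1))}

theorem mem_E (g : FreeGroup (Fin N)) (ζ : Bd N) :
    ζ ∈ E g ↔ g.toWord.getLast? ≠ some (inv' (ζ.1 1)) := Iff.rfl

theorem measurableSet_E (g : FreeGroup (Fin N)) : MeasurableSet (E g) := by
  have h1 : IsOpen {a : Lt N | g.toWord.getLast? ≠ some (inv' a)} := isOpen_discrete _
  exact (h1.preimage (continuous_eval (1 : FreeGroup (Fin N)))).measurableSet

theorem measurableSet_ne (a : Lt N) : MeasurableSet {ξ : Bd N | ξ.1 1 ≠ a} := by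
  have h1 : IsOpen {b : Lt N | b ≠ a} := isOpen_discrete _
  exact (h1.preimage (continuous_eval (1 : FreeGroup (Fin N)))).measurableSet

/-- the ray of an end passes through all prefixes of an element from which one does not go back -/
theorem ray_prefix (g : FreeGroup (Fin N)) (ζ : Bd N) (h : g⁻¹ • ζ ∈ E g) :
    ∀ (p s : List (Lt N)), g.toWord = p ++ s → ray ζ p.length = FreeGroup.mk p := by
  intro p
  induction p using List.reverseRecOn with
  | nil => intro s _; rfl
  | append_singleton p a ih =>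
    intro s hs
    have h1 : g.toWord = p ++ (a :: s) := by
      rw [hs, List.append_assoc]
      rfl
    have h2 := ih (a :: s) h1
    have hr : FreeGroup.IsReduced (a :: s) := by
      have h3 : FreeGroup.IsReduced (p ++ (a :: s)) := by
        rw [← h1]
        exact FreeGroup.isReduced_toWord
      exact (List.isChain_append.mp h3).2.1
    have hg : FreeGroup.mk p * FreeGroup.mk (a :: s) = g := by
      rw [FreeGroup.mul_mk, ← h1, FreeGroup.mk_toWord]
    have h4 : ζ.1 (FreeGroup.mk p) = a := by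
      by_contra hc
      have h5 := follow ζ s a (FreeGroup.mk p) hr hc
      rw [hg] at h5
      apply (mem_E g _).1 h
      rw [Bd.smul_apply, inv_inv, mul_one, h5, inv'_inv', h1, List.getLast?_append,
        List.getLast?_eq_getLast_of_ne_nil (by simp), Option.some_or]
    rw [List.length_append, List.length_singleton, ray, h2, h4]
    rw [lt, FreeGroup.mul_mk]

theorem ray_of_mem {g : FreeGroup (Fin N)} {ζ : Bd N} (h : g⁻¹ • ζ ∈ E g) :
    ray ζ g.norm = g := by
  have := ray_prefix g ζ h g.toWord [] (by simp)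
  rw [FreeGroup.mk_toWord] at this
  exact this

theorem first_of_ray {g : FreeGroup (Fin N)} {ζ : Bd N} (h : ray ζ g.norm = g) {a : Lt N}
    {l : List (Lt N)} (hw : g.toWord = a :: l) : ζ.1 1 = a := by
  have hn : g.norm = 1 + l.length := by
    unfold FreeGroup.norm
    rw [hw, List.length_cons, add_comm]
  obtain ⟨t, ht⟩ := ray_pfx ζ 1 l.length
  rw [← hn, h, hw] at ht
  have h1 : (ray ζ 1).toWord = [ζ.1 1] := by
    have := ray_word ζ 0
    simpa [ray] using this
  rw [h1] at ht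
  simp only [List.cons_append, List.nil_append, List.cons.injEq] at ht
  exact ht.1.symm

theorem buse_le (h3 : S_RAY) (A : FTree N) (hA : A.InCV) (x : A.T) (C : ℝ) (hC : IsBCC A x C)
    (ζ : Bd N) (w : FreeGroup (Fin N)) : buse A ζ (w⁻¹ • x) x ≤ (lenFn A x).L w := by
  have key : ∀ n, dist (w⁻¹ • x) (ray ζ n • x) - dist x (ray ζ n • x) =
      (lenFn A x).L w - 2 * G (lenFn A x) w⁻¹ (ray ζ n) := by
    intro n
    have e1 : dist (w⁻¹ • x) (ray ζ n • x) = (lenFn A x).L (w * ray ζ n) := by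
      rw [lenFn_L, ← A.isometric w, smul_inv_smul, mul_smul]
    have e2 : dist x (ray ζ n • x) = (lenFn A x).L (ray ζ n) := by rw [lenFn_L]
    rw [e1, e2, L_mul]
    ring
  obtain ⟨n0, hn0⟩ := (h3 N A hA x C hC).1 ζ w⁻¹
  have hlim : Tendsto (fun n : ℕ => dist (w⁻¹ • x) (ray ζ n • x) - dist x (ray ζ n • x)) atTop
      (𝓝 (dist (w⁻¹ • x) (ray ζ n0 • x) - dist x (ray ζ n0 • x))) := by
    refine tendsto_const_nhds.congr' ?_
    filter_upwards [eventually_ge_atTop n0] with n hn
    rw [key, key, hn0 n hn]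
  unfold buse
  rw [hlim.limUnder_eq, key]
  have := G_nonneg (lenFn A x) w⁻¹ (ray ζ n0)
  linarith

theorem gp_nonneg (h3 : S_RAY) (A : FTree N) (hA : A.InCV) (x : A.T) (C : ℝ) (hC : IsBCC A x C)
    (q : Bd2 N) (hq : q ∈ U 1) : 0 ≤ gpBd A x q := by
  obtain ⟨_, n0, hn0⟩ := (h3 N A hA x C hC).2 q.1.1 q.1.2 hq
  have hlim : Tendsto (fun n : ℕ => gpT x (ray q.1.1 n • x) (ray q.1.2 n • x)) atTop
      (𝓝 (gpT x (ray q.1.1 n0 • x) (ray q.1.2 n0 • x))) := by
    refine tendsto_const_nhds.congr' ?_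
    filter_upwards [eventually_ge_atTop n0] with n hn
    rw [← G_lenFn, ← G_lenFn, hn0 n hn]
  unfold gpBd
  rw [hlim.limUnder_eq, ← G_lenFn]
  exact G_nonneg _ _ _

theorem L_le (A : FTree N) (x y : A.T) (g : FreeGroup (Fin N)) :
    (lenFn A x).L g ≤ (lenFn A y).L g + 2 * dist x y := by
  rw [lenFn_L, lenFn_L]
  have h1 := dist_triangle4 x y (g • y) (g • x)
  have h2 : dist (g • y) (g • x) = dist x y := by rw [A.isometric g, dist_comm]
  linarith

theorem L_nonneg' (A : FTree N) (x : A.T) (g : FreeGroup (Fin N)) : 0 ≤ (lenFn A x).L g := by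
  rw [lenFn_L]
  exact dist_nonneg

/-- the mass of the ends behind `g` -/
theorem mass_ray (h3 : S_RAY) (A : FTree N) (hA : A.InCV) (x : A.T) (C : ℝ) (hC : IsBCC A x C)
    (ν : A.T → Measure (Bd N)) (hν : IsPSDensity A ν) (κ : ℝ≥0∞)
    (hκ : ∀ a : Lt N, κ ≤ ν x {ξ | ξ.1 1 ≠ a}) (g : FreeGroup (Fin N)) (a : Lt N)
    (l : List (Lt N)) (hw : g.toWord = a :: l) :
    ENNReal.ofReal (Real.exp (-critExp A * (lenFn A x).L g)) * κ ≤
      ν x {ζ | ray ζ g.norm = g} := by
  have h0 : 0 ≤ critExp A := critExp_nonneg A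
  have h1 : (fun ζ : Bd N => g⁻¹ • ζ) ⁻¹' E g ⊆ {ζ : Bd N | ray ζ g.norm = g} :=
    fun ζ hζ => ray_of_mem hζ
  have h2 : ν x ((fun ζ : Bd N => g⁻¹ • ζ) ⁻¹' E g) = ν (g⁻¹ • x) (E g) := by
    rw [← hν.equivariant g⁻¹ x, Measure.map_apply (continuous_smul_bd g⁻¹).measurable
      (measurableSet_E g)]
  have h3' : ν (g⁻¹ • x) (E g) = ∫⁻ ξ in E g,
      ENNReal.ofReal (Real.exp (-critExp A * buse A ξ (g⁻¹ • x) x)) ∂ν x := by
    rw [hν.conformal x (g⁻¹ • x), withDensity_apply _ (measurableSet_E g)]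
  have h4 : ∫⁻ ξ in E g, ENNReal.ofReal (Real.exp (-critExp A * (lenFn A x).L g)) ∂ν x ≤
      ∫⁻ ξ in E g, ENNReal.ofReal (Real.exp (-critExp A * buse A ξ (g⁻¹ • x) x)) ∂ν x := by
    refine setLIntegral_mono' (measurableSet_E g) fun ξ _ => ?_
    apply ENNReal.ofReal_le_ofReal
    apply Real.exp_le_exp.2
    have h5 := buse_le h3 A hA x C hC ξ g
    have h6 := mul_le_mul_of_nonneg_left h5 h0
    linarith
  rw [setLIntegral_const] at h4
  have h5 : κ ≤ ν x (E g) := by
    refine (hκ (inv' ((a :: l).getLast (by simp)))).trans (measure_mono ?_)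
    intro ξ hξ
    rw [mem_E, hw, List.getLast?_eq_getLast_of_ne_nil (by simp)]
    intro h6
    apply hξ
    have h7 := Option.some.inj h6
    rw [h7, inv'_inv']
  calc ENNReal.ofReal (Real.exp (-critExp A * (lenFn A x).L g)) * κ
      ≤ ENNReal.ofReal (Real.exp (-critExp A * (lenFn A x).L g)) * ν x (E g) := by gcongr
    _ ≤ _ := h4
    _ = ν (g⁻¹ • x) (E g) := h3'.symm
    _ = ν x ((fun ζ : Bd N => g⁻¹ • ζ) ⁻¹' E g) := h2.symm
    _ ≤ ν x {ζ | ray ζ g.norm = g} := measure_mono h1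

theorem comap_val {α β : Type} [MeasurableSpace α] [MeasurableSpace β] (f : α → β) (μ : Measure β)
    (h0 : Measure.comap f μ ≠ 0) {s : Set α} (hs : MeasurableSet s) :
    Measure.comap f μ s = μ (f '' s) := by
  by_cases h : Function.Injective f ∧ ∀ s, MeasurableSet s → NullMeasurableSet (f '' s) μ
  · exact (Measure.comap_apply₀ f μ h.1 h.2 hs.nullMeasurableSet)
  · exact absurd (by rw [Measure.comap, dif_neg h]) h0

theorem t (h1 : S_GIB) (h2 : S_BCL) (h3 : S_RAY) (h4 : S_PSP) (h5 : S_CYL) : S_GB2 := by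
  intro N hN A hA μ hμ hU y
  obtain ⟨x0, D0, hD0, hup⟩ := h1 N A hA μ hμ
  obtain ⟨ν, hν, c, x, hμe⟩ := hμ
  obtain ⟨C, hC⟩ := h2 N A hA x
  have hh := critExp_nonneg A
  haveI : IsFiniteMeasure (ν x) := hν.finite x
  haveI : Nonempty (Fin N) := ⟨⟨0, by omega⟩⟩
  haveI : Nonempty (Lt N) := ⟨(⟨0, by omega⟩, true)⟩
  obtain ⟨a0, ha0⟩ := Finite.exists_min fun a : Lt N => ν x {ξ | ξ.1 1 ≠ a}
  obtain ⟨κ, hκ⟩ : ∃ κ : ℝ≥0∞, κ = ν x {ξ | ξ.1 1 ≠ a0} := ⟨_, rfl⟩
  have hκ0 : 0 < κ := by rw [hκ]; exact h4 N hN A ν hν x a0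
  have hκt : κ ≠ ∞ := by rw [hκ]; exact measure_ne_top _ _
  have hκr : 0 < κ.toReal := ENNReal.toReal_pos hκ0.ne' hκt
  have hmin : ∀ a : Lt N, κ ≤ ν x {ξ | ξ.1 1 ≠ a} := by rw [hκ]; exact ha0
  -- nonvanishing
  have hc0 : c ≠ 0 := by
    rintro rfl
    apply hU
    rw [hμe, zero_smul]
    simp
  have hcr : (0 : ℝ) < c := lt_of_le_of_ne (NNReal.coe_nonneg c) (by exact_mod_cast hc0.symm)
  have hcomap : ((ν x).prod (ν x)).comap (fun q : Bd2 N => q.1) ≠ 0 := by
    intro h0
    apply hU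
    rw [hμe, h0]
    simp
  have hfin : ∀ g : FreeGroup (Fin N), μ.meas (Cyl g) < ∞ := fun g =>
    μ.finite _ ((h5 N).1 g).2
  have hcyl1 : (Cyl (1 : FreeGroup (Fin N))) = U 1 := by
    ext q
    unfold Cyl
    simp only [Set.mem_ofPred_eq, and_iff_left_iff_imp]
    intro _
    rw [FreeGroup.norm_one]
    rfl
  -- lower bound at x
  have hlow : ∀ g : FreeGroup (Fin N), g ≠ 1 →
      (c : ℝ) * (κ.toReal * κ.toReal) * Real.exp (-critExp A * (lenFn A x).L g) ≤
        μ.meas.real (Cyl g) := by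
    intro g hg
    obtain ⟨a, l, hw⟩ := exists_cons hg
    have hms : MeasurableSet (Cyl g) := ((h5 N).1 g).1.isOpen.measurableSet
    have hr := mass_ray h3 A hA x C hC ν hν κ hmin g a l hw
    have hm : κ * (ENNReal.ofReal (Real.exp (-critExp A * (lenFn A x).L g)) * κ) ≤
        ((ν x).prod (ν x)).comap (fun q : Bd2 N => q.1) (Cyl g) := by
      rw [comap_val _ _ hcomap hms]
      have hsub : {ξ : Bd N | ξ.1 1 ≠ a} ×ˢ {ζ : Bd N | ray ζ g.norm = g} ⊆
          (fun q : Bd2 N => q.1) '' (Cyl g) := by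
        rintro ⟨ξ, ζ⟩ ⟨hξ, hζ⟩
        have h6 : ζ.1 1 = a := first_of_ray hζ hw
        have h7 : ξ.1 1 ≠ ζ.1 1 := by rw [h6]; exact hξ
        refine ⟨⟨(ξ, ζ), fun h => h7 (by rw [show ξ = ζ from h])⟩, ⟨h7, hζ⟩, rfl⟩
      refine le_trans ?_ (measure_mono hsub)
      rw [Measure.prod_prod]
      exact mul_le_mul' (hmin a) hr
    have hmu : (c : ℝ≥0∞) * (κ * (ENNReal.ofReal (Real.exp (-critExp A * (lenFn A x).L g)) * κ)) ≤
        μ.meas (Cyl g) := by
      rw [hμe, Measure.smul_apply, withDensity_apply _ hms, ENNReal.smul_def, smul_eq_mul]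
      refine mul_le_mul_right ?_ _
      refine hm.trans ?_
      have h8 : ∫⁻ _ in Cyl g, (1 : ℝ≥0∞) ∂((ν x).prod (ν x)).comap (fun q : Bd2 N => q.1) =
          ((ν x).prod (ν x)).comap (fun q : Bd2 N => q.1) (Cyl g) := by
        rw [setLIntegral_const, one_mul]
      rw [← h8]
      refine setLIntegral_mono' hms fun q hq => ?_
      rw [← ENNReal.ofReal_one]
      apply ENNReal.ofReal_le_ofReal
      apply Real.one_le_exp
      have := gp_nonneg h3 A hA x C hC q hq.1
      positivity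
    have h9 := ENNReal.toReal_mono (hfin g).ne hmu
    rw [ENNReal.toReal_mul, ENNReal.toReal_mul, ENNReal.toReal_mul,
      ENNReal.toReal_ofReal (Real.exp_pos _).le] at h9
    unfold Measure.real
    calc (c : ℝ) * (κ.toReal * κ.toReal) * Real.exp (-critExp A * (lenFn A x).L g)
        = (c : ℝ≥0∞).toReal * (κ.toReal *
          (Real.exp (-critExp A * (lenFn A x).L g) * κ.toReal)) := by
          rw [ENNReal.coe_toReal]; ring
      _ ≤ _ := h9
  have hm1 : 0 < μ.meas.real (Cyl (1 : FreeGroup (Fin N))) := by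
    unfold Measure.real
    refine ENNReal.toReal_pos ?_ (hfin 1).ne
    rw [hcyl1]
    exact hU
  set h := critExp A with hhdef
  set B : ℝ := (c : ℝ) * (κ.toReal * κ.toReal) with hB
  have hB0 : 0 < B := by positivity
  set m1 := μ.meas.real (Cyl (1 : FreeGroup (Fin N))) with hm1def
  refine ⟨D0 * Real.exp (h * (2 * dist y x0)) + Real.exp (h * (2 * dist x y)) / B + 1 / m1,
    by positivity, fun g => ⟨?_, ?_⟩⟩
  · have e1 : Real.exp (-h * (lenFn A x0).L g) ≤
        Real.exp (h * (2 * dist y x0)) * Real.exp (-h * (lenFn A y).L g) := by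
      rw [← Real.exp_add]
      apply Real.exp_le_exp.2
      have := mul_le_mul_of_nonneg_left (L_le A y x0 g) hh
      linarith
    calc μ.meas.real (Cyl g) ≤ D0 * Real.exp (-h * (lenFn A x0).L g) := hup g
      _ ≤ D0 * (Real.exp (h * (2 * dist y x0)) * Real.exp (-h * (lenFn A y).L g)) :=
        mul_le_mul_of_nonneg_left e1 hD0.le
      _ = D0 * Real.exp (h * (2 * dist y x0)) * Real.exp (-h * (lenFn A y).L g) := by ring
      _ ≤ _ := by
        refine mul_le_mul_of_nonneg_right ?_ (Real.exp_pos _).le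
        have : 0 ≤ Real.exp (h * (2 * dist x y)) / B := by positivity
        have : 0 ≤ 1 / m1 := by positivity
        linarith
  · by_cases hg : g = 1
    · subst hg
      have e1 : Real.exp (-h * (lenFn A y).L 1) ≤ 1 := by
        apply Real.exp_le_one_iff.2
        have := mul_nonneg hh (L_nonneg' A y 1)
        linarith
      calc Real.exp (-h * (lenFn A y).L 1) ≤ 1 := e1
        _ = 1 / m1 * m1 := by field_simp
        _ ≤ _ := by
          refine mul_le_mul_of_nonneg_right ?_ hm1.le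
          have : 0 ≤ Real.exp (h * (2 * dist x y)) / B := by positivity
          have : 0 ≤ D0 * Real.exp (h * (2 * dist y x0)) := by positivity
          linarith
    · have e1 : Real.exp (-h * (lenFn A y).L g) ≤
          Real.exp (h * (2 * dist x y)) * Real.exp (-h * (lenFn A x).L g) := by
        rw [← Real.exp_add]
        apply Real.exp_le_exp.2
        have := mul_le_mul_of_nonneg_left (L_le A x y g) hh
        linarith
      have e2 := hlow g hg
      have e3 : 0 ≤ μ.meas.real (Cyl g) := measureReal_nonneg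
      calc Real.exp (-h * (lenFn A y).L g)
          ≤ Real.exp (h * (2 * dist x y)) * Real.exp (-h * (lenFn A x).L g) := e1
        _ = Real.exp (h * (2 * dist x y)) / B * (B * Real.exp (-h * (lenFn A x).L g)) := by
          field_simp
        _ ≤ Real.exp (h * (2 * dist x y)) / B * μ.meas.real (Cyl g) :=
          mul_le_mul_of_nonneg_left e2 (by positivity)
        _ ≤ _ := by
          refine mul_le_mul_of_nonneg_right ?_ e3
          have : 0 ≤ D0 * Real.exp (h * (2 * dist y x0)) := by positivity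
          have : 0 ≤ 1 / m1 := by positivity
          linarith

end Pool.Agent.N278.PSC.GB2
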